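import Pool.Agent.H67.CC.L.Glue3

/-! # Random sets without edges, with a Borel-Cantelli statement for the barriers -/

set_option autoImplicit false

namespace Q198.CI

open Finset MeasureTheory

lemma unif_Iio_le {a : ℝ} (ha : 0 ≤ a) : unif (Set.Iio a) ≤ ENNReal.ofReal a := by
  rcases ha.eq_or_lt with h | h
  · rw [← h]
    have h1 : unif (Set.Iio (0:ℝ)) = 0 :=
      measure_mono_null (fun x hx => Set.mem_Iic.2 (le_of_lt (Set.mem_Iio.1 hx))) unif_Iic
    rw [h1]
    exact zero_le
  · rcases le_total a 1 with h1 | h1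
    · exact (unif_Iio h h1).le
    · calc unif (Set.Iio a) ≤ 1 := prob_le_one
        _ ≤ ENNReal.ofReal a := by
          rw [← ENNReal.ofReal_one]
          exact ENNReal.ofReal_le_ofReal h1

theorem glue4 {ι γ : Type} [Countable ι] [Countable γ] [DecidableEq ι] [DecidableEq γ]
    {k : ι → ℕ} (hk0 : ∀ i, 0 < k i) (e : ι → Finset ℕ) (he : ∀ i, (e i).card = k i)
    {a : ι → ℝ} (ha : ∀ i, 0 < a i) (ha2 : ∀ i, a i ≤ 1 / 2)
    (c : ι → γ) (F : ℕ → Finset ι) (hF : ∀ v i, i ∈ F v ↔ v ∈ e i)
    {p : ℕ → ℝ} (hp : ∀ v, 0 ≤ p v) (hp1 : ∀ v, p v ≤ ∏ i ∈ F v, a i)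
    {α : γ → ℝ} (hα0 : ∀ g, 0 ≤ α g) (hα : Summable α) :
    ∃ (Ω : Type) (_ : MeasurableSpace Ω) (P : Measure Ω) (_ : IsProbabilityMeasure P)
      (E : ℕ → Set Ω), (∀ v, MeasurableSet (E v)) ∧
      (∀ T : Finset ℕ, (∀ i j, i ≠ j → e i ⊆ T → e j ⊆ T → c i ≠ c j) → P (⋂ v ∈ T, E v) = ENNReal.ofReal (∏ v ∈ T, p v)) ∧
      (∀ᵐ ω ∂P, ∃ u : γ → ℝ, (∀ g, 0 < u g) ∧ {g | u g < α g}.Finite ∧ ∀ i, (∀ v ∈ e i, ω ∈ E v) → u (c i) < a i) := by
  classical
  set ρ : ℕ → ℝ := fun v => ∏ i ∈ F v, a i with hρ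
  have hρ0 : ∀ v, 0 < ρ v := fun v => prod_pos fun i _ => ha i
  set q : ℕ → ℝ := fun v => p v / ρ v with hq
  have hq0 : ∀ v, 0 ≤ q v := fun v => div_nonneg (hp v) (hρ0 v).le
  have hq1 : ∀ v, q v ≤ 1 := fun v => (div_le_one (hρ0 v)).2 (hp1 v)
  set θ : ι → Bool → ℝ := fun i b => if b then 1 / a i else 0 with hθ
  have hθ0 : ∀ i b, 0 ≤ θ i b := by
    intro i b
    simp only [hθ]
    split_ifs
    · exact (one_div_pos.2 (ha i)).le
    · exact le_rfl
  have hθ1 : ∀ i b, θ i b * a i ≤ 1 := by
    intro i b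
    simp only [hθ]
    split_ifs
    · rw [one_div_mul_cancel (ha i).ne']
    · simp
  set M : (ι × Bool) ⊕ ℕ → Measure (Finset ℕ) :=
    Sum.elim (fun x => bm (e x.1) (ew (k x.1) (a x.1) (θ x.1 x.2))) (fun v => vw v (q v)) with hM
  have hMp : ∀ x, IsProbabilityMeasure (M x) := by
    rintro (⟨i, b⟩ | v)
    · exact bm_prob (ew_law (he i) (hk0 i) (ha i) (ha2 i) (hθ0 i b) (hθ1 i b))
    · exact bm_prob (vw_law v (hq0 v) (hq1 v))
  set P₁ : Measure (γ → ℝ) := Measure.infinitePi (fun _ => unif) with hP₁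
  set P₂ : Measure ((ι × Bool) ⊕ ℕ → Finset ℕ) := Measure.infinitePi M with hP₂
  set E : ℕ → Set ((γ → ℝ) × ((ι × Bool) ⊕ ℕ → Finset ℕ)) := fun v =>
    {ω | v ∈ ω.2 (Sum.inr v) ∧ ∀ i ∈ F v, v ∈ ω.2 (Sum.inl (i, decide (ω.1 (c i) < a i)))} with hE
  have hEmem : ∀ v ω, ω ∈ E v ↔ v ∈ ω.2 (Sum.inr v) ∧
      ∀ i ∈ F v, v ∈ ω.2 (Sum.inl (i, decide (ω.1 (c i) < a i))) := fun v ω => Iff.rfl
  -- measurability
  have hmeas2 : ∀ (x : (ι × Bool) ⊕ ℕ) (S : Set (Finset ℕ)),
      MeasurableSet {ω : (γ → ℝ) × ((ι × Bool) ⊕ ℕ → Finset ℕ) | ω.2 x ∈ S} := by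
    intro x S
    have h1 : Measurable (fun ω : (γ → ℝ) × ((ι × Bool) ⊕ ℕ → Finset ℕ) => ω.2 x) :=
      (measurable_pi_apply x).comp measurable_snd
    exact h1 (MeasurableSet.of_discrete (s := S))
  have hmeas1 : ∀ (g : γ) (s : Set ℝ), MeasurableSet s →
      MeasurableSet {ω : (γ → ℝ) × ((ι × Bool) ⊕ ℕ → Finset ℕ) | ω.1 g ∈ s} := by
    intro g s hs
    have h1 : Measurable (fun ω : (γ → ℝ) × ((ι × Bool) ⊕ ℕ → Finset ℕ) => ω.1 g) :=
      (measurable_pi_apply g).comp measurable_fst
    exact h1 hs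
  have hEm : ∀ v, MeasurableSet (E v) := by
    intro v
    have h1 : E v = {ω | ω.2 (Sum.inr v) ∈ {S : Finset ℕ | v ∈ S}} ∩ ⋂ i ∈ F v,
        (({ω | ω.1 (c i) ∈ Set.Iio (a i)} ∩ {ω | ω.2 (Sum.inl (i, true)) ∈ {S : Finset ℕ | v ∈ S}}) ∪
        ({ω | ω.1 (c i) ∈ Set.Ici (a i)} ∩ {ω | ω.2 (Sum.inl (i, false)) ∈ {S : Finset ℕ | v ∈ S}})) := by
      ext ω
      rw [hEmem]
      simp only [Set.mem_inter_iff, Set.mem_iInter, Set.mem_union, Set.mem_ofPred_eq, Set.mem_Iio,
        Set.mem_Ici]
      refine and_congr Iff.rfl (forall_congr' fun i => forall_congr' fun _ => ?_)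
      by_cases h : ω.1 (c i) < a i
      · simp [h, not_le.2 h]
      · simp [h, not_lt.1 h]
    rw [h1]
    refine (hmeas2 _ _).inter (Finset.measurableSet_biInter _ fun i _ => ?_)
    exact ((hmeas1 _ _ measurableSet_Iio).inter (hmeas2 _ _)).union
      ((hmeas1 _ _ measurableSet_Ici).inter (hmeas2 _ _))
  refine ⟨_, inferInstance, P₁.prod P₂, inferInstance, E, hEm, ?_, ?_⟩
  · intro T hT
    set JF : Finset ι := T.biUnion F with hJF
    have hJFmem : ∀ i, i ∈ JF ↔ ∃ v ∈ T, v ∈ e i := by
      intro i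
      rw [hJF, mem_biUnion]
      constructor
      · rintro ⟨v, h1, h2⟩
        exact ⟨v, h1, (hF v i).1 h2⟩
      · rintro ⟨v, h1, h2⟩
        exact ⟨v, h1, (hF v i).2 h2⟩
    set J : Finset ι := JF.filter (fun i => e i ⊆ T) with hJ
    have hcinj : ∀ i ∈ J, ∀ j ∈ J, c i = c j → i = j := by
      intro i hi j hj hij
      rw [hJ, mem_filter] at hi hj
      by_contra hne
      exact hT i j hne hi.2 hj.2 hij
    rw [Measure.prod_apply (Finset.measurableSet_biInter _ fun v _ => hEm v)]
    -- the sections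
    have hsec : ∀ u : γ → ℝ, P₂ (Prod.mk u ⁻¹' (⋂ v ∈ T, E v)) =
        ENNReal.ofReal (∏ v ∈ T, p v) * ((∏ i ∈ J, ENNReal.ofReal (1 / a i)) *
          Set.indicator {u : γ → ℝ | ∀ i ∈ J, u (c i) < a i} 1 u) := by
      intro u
      set b : ι → Bool := fun i => decide (u (c i) < a i) with hb
      set s : Finset ((ι × Bool) ⊕ ℕ) := (JF.image (fun i => (Sum.inl (i, b i) : (ι × Bool) ⊕ ℕ))) ∪
        T.image (fun v => (Sum.inr v : (ι × Bool) ⊕ ℕ)) with hs
      set t : (ι × Bool) ⊕ ℕ → Set (Finset ℕ) :=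
        Sum.elim (fun x => {S | e x.1 ∩ T ⊆ S}) (fun v => {S | {v} ⊆ S}) with ht
      have h1 : Prod.mk u ⁻¹' (⋂ v ∈ T, E v) = Set.pi (s : Set _) t := by
        ext x
        simp only [Set.mem_preimage, Set.mem_iInter, hEmem, Set.mem_pi, mem_coe]
        constructor
        · intro h z hz
          rw [hs, mem_union, mem_image, mem_image] at hz
          rcases hz with ⟨i, hi, rfl⟩ | ⟨v, hv, rfl⟩
          · simp only [ht, Sum.elim_inl, Set.mem_ofPred_eq]
            intro v hv
            rw [mem_inter] at hv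
            exact (h v hv.2).2 i ((hF v i).2 hv.1)
          · simp only [ht, Sum.elim_inr, Set.mem_ofPred_eq, singleton_subset_iff]
            exact (h v hv).1
        · intro h v hv
          refine ⟨?_, fun i hi => ?_⟩
          · have := h (Sum.inr v) (by
              rw [hs, mem_union, mem_image, mem_image]
              exact Or.inr ⟨v, hv, rfl⟩)
            simpa only [ht, Sum.elim_inr, Set.mem_ofPred_eq, singleton_subset_iff] using this
          · have h2 : i ∈ JF := by
              rw [hJF, mem_biUnion]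
              exact ⟨v, hv, hi⟩
            have := h (Sum.inl (i, b i)) (by
              rw [hs, mem_union, mem_image, mem_image]
              exact Or.inl ⟨i, h2, rfl⟩)
            simp only [ht, Sum.elim_inl, Set.mem_ofPred_eq] at this
            exact this (mem_inter.2 ⟨(hF v i).1 hi, hv⟩)
      rw [h1, hP₂, Measure.infinitePi_pi _ (fun z _ => MeasurableSet.of_discrete), hs, prod_union,
        prod_image, prod_image]
      · have h2 : ∀ i ∈ JF, M (Sum.inl (i, b i)) (t (Sum.inl (i, b i))) =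
            ENNReal.ofReal (a i ^ (e i ∩ T).card) *
              (if e i ⊆ T then ENNReal.ofReal (θ i (b i)) else 1) := by
          intro i _
          simp only [hM, ht, Sum.elim_inl]
          rw [ew_superset (he i) (hk0 i) (ha i) (ha2 i) (hθ0 i _) (hθ1 i _) inter_subset_left,
            ENNReal.ofReal_mul (pow_nonneg (ha i).le _)]
          congr 1
          by_cases h : e i ⊆ T
          · rw [if_pos h, if_pos (inter_eq_left.2 h)]
          · rw [if_neg h, if_neg (fun h3 => h (inter_eq_left.1 h3)), ENNReal.ofReal_one]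
        have h3 : ∀ v ∈ T, M (Sum.inr v) (t (Sum.inr v)) = ENNReal.ofReal (q v) := by
          intro v _
          simp only [hM, ht, Sum.elim_inr]
          unfold vw
          rw [bm_superset (vw_law v (hq0 v) (hq1 v)) (subset_refl _) (by simp)]
          simp
        rw [prod_congr rfl h2, prod_congr rfl h3, prod_mul_distrib, ← prod_filter, ← hJ]
        have h4 : ∏ i ∈ JF, ENNReal.ofReal (a i ^ (e i ∩ T).card) = ∏ v ∈ T, ENNReal.ofReal (ρ v) := by
          rw [← ENNReal.ofReal_prod_of_nonneg (fun i _ => pow_nonneg (ha i).le _),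
            ← ENNReal.ofReal_prod_of_nonneg (fun v _ => (hρ0 v).le)]
          congr 1
          have h5 : ∀ i ∈ JF, a i ^ (e i ∩ T).card = ∏ v ∈ T, (if v ∈ e i then a i else 1) := by
            intro i _
            rw [← prod_filter, prod_const]
            congr 2
            ext v
            rw [mem_inter, mem_filter]
            exact and_comm
          rw [prod_congr rfl h5, prod_comm]
          refine prod_congr rfl fun v hv => ?_
          rw [← prod_filter]
          simp only [hρ]
          apply prod_congr _ fun _ _ => rfl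
          ext i
          rw [mem_filter, hJFmem]
          constructor
          · rintro ⟨_, h6⟩
            exact (hF v i).2 h6
          · intro h6
            exact ⟨⟨v, hv, (hF v i).1 h6⟩, (hF v i).1 h6⟩
        have h5 : ∏ i ∈ J, ENNReal.ofReal (θ i (b i)) = (∏ i ∈ J, ENNReal.ofReal (1 / a i)) *
            Set.indicator {u : γ → ℝ | ∀ i ∈ J, u (c i) < a i} 1 u := by
          by_cases h : ∀ i ∈ J, u (c i) < a i
          · rw [Set.indicator_of_mem (by exact h), Pi.one_apply, mul_one]
            refine prod_congr rfl fun i hi => ?_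
            simp only [hθ, hb, h i hi, decide_true, if_true]
          · rw [Set.indicator_of_notMem (by exact h), mul_zero]
            push Not at h
            obtain ⟨i, hi, hi2⟩ := h
            apply prod_eq_zero hi
            have : b i = false := by
              simp only [hb]
              exact decide_eq_false (not_lt.2 hi2)
            simp [hθ, this]
        rw [h4, h5]
        have h6 : (∏ v ∈ T, ENNReal.ofReal (ρ v)) * ∏ v ∈ T, ENNReal.ofReal (q v) =
            ENNReal.ofReal (∏ v ∈ T, p v) := by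
          rw [← prod_mul_distrib, ENNReal.ofReal_prod_of_nonneg (fun v _ => hp v)]
          refine prod_congr rfl fun v _ => ?_
          rw [← ENNReal.ofReal_mul (hρ0 v).le]
          congr 1
          simp only [hq]
          field_simp [(hρ0 v).ne']
        rw [← h6]
        ring
      · intro v _ v' _ h
        exact Sum.inr_injective h
      · intro i _ i' _ h
        have := Sum.inl_injective h
        exact congrArg Prod.fst this
      · rw [Finset.disjoint_left]
        intro z hz hz'
        rw [mem_image] at hz hz'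
        obtain ⟨i, _, rfl⟩ := hz
        obtain ⟨v, _, h⟩ := hz'
        exact absurd h (by simp)
    simp_rw [hsec]
    have hbox : P₁ {u : γ → ℝ | ∀ i ∈ J, u (c i) < a i} = ∏ i ∈ J, ENNReal.ofReal (a i) := by
      have h1 : {u : γ → ℝ | ∀ i ∈ J, u (c i) < a i} = Set.pi (J.image c : Finset γ)
          (fun g => {y : ℝ | ∀ i ∈ J, c i = g → y < a i}) := by
        ext u
        simp only [Set.mem_ofPred_eq, Set.mem_pi, coe_image, Set.mem_image, mem_coe]
        constructor
        · rintro h g ⟨j, _, rfl⟩ i hi hij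
          rw [← hij]
          exact h i hi
        · intro h i hi
          exact h (c i) ⟨i, hi, rfl⟩ i hi rfl
      have h2 : ∀ i ∈ J, {y : ℝ | ∀ j ∈ J, c j = c i → y < a j} = Set.Iio (a i) := by
        intro i hi
        ext y
        simp only [Set.mem_ofPred_eq, Set.mem_Iio]
        constructor
        · intro h
          exact h i hi rfl
        · intro h j hj hij
          rw [hcinj j hj i hi hij]
          exact h
      rw [h1, hP₁, Measure.infinitePi_pi, prod_image hcinj]
      · refine prod_congr rfl fun i hi => ?_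
        rw [h2 i hi, unif_Iio (ha i) (by linarith [ha2 i])]
      · intro g hg
        rw [mem_image] at hg
        obtain ⟨i, hi, rfl⟩ := hg
        rw [h2 i hi]
        exact measurableSet_Iio
    have hmeasbox : MeasurableSet {u : γ → ℝ | ∀ i ∈ J, u (c i) < a i} := by
      have h1 : {u : γ → ℝ | ∀ i ∈ J, u (c i) < a i} = ⋂ i ∈ J, {u | u (c i) < a i} := by
        ext u
        simp
      rw [h1]
      refine Finset.measurableSet_biInter _ fun i _ => ?_
      exact (measurable_pi_apply (c i)) measurableSet_Iio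
    rw [lintegral_const_mul', lintegral_const_mul', lintegral_indicator_one hmeasbox, hbox]
    · have h1 : (∏ i ∈ J, ENNReal.ofReal (1 / a i)) * ∏ i ∈ J, ENNReal.ofReal (a i) = 1 := by
        rw [← prod_mul_distrib]
        refine prod_eq_one fun i _ => ?_
        rw [← ENNReal.ofReal_mul (one_div_pos.2 (ha i)).le, one_div_mul_cancel (ha i).ne',
          ENNReal.ofReal_one]
      rw [h1, mul_one]
    · exact ENNReal.prod_ne_top fun i _ => ENNReal.ofReal_ne_top
    · exact ENNReal.ofReal_ne_top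
  · -- the almost sure statement
    have h1 : ∀ᵐ ω ∂(P₁.prod P₂), ∀ g, 0 < ω.1 g := by
      rw [ae_all_iff]
      intro g
      have h2 : ∀ᵐ u ∂P₁, 0 < u g := by
        rw [ae_iff]
        have h3 : {u : γ → ℝ | ¬ 0 < u g} = Set.pi (({g} : Finset γ) : Set γ) (fun _ => Set.Iic 0) := by
          ext u
          simp
        rw [h3, hP₁, Measure.infinitePi_pi _ (fun _ _ => measurableSet_Iic)]
        simp [unif_Iic]
      exact Measure.quasiMeasurePreserving_fst.ae h2
    have h2 : ∀ᵐ ω ∂(P₁.prod P₂), ∀ i, ¬ e i ⊆ ω.2 (Sum.inl (i, false)) := by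
      rw [ae_all_iff]
      intro i
      have h3 : ∀ᵐ x ∂P₂, ¬ e i ⊆ x (Sum.inl (i, false)) := by
        rw [ae_iff]
        have h4 : {x : (ι × Bool) ⊕ ℕ → Finset ℕ | ¬ ¬ e i ⊆ x (Sum.inl (i, false))} =
            Set.pi (({Sum.inl (i, false)} : Finset ((ι × Bool) ⊕ ℕ)) : Set _)
              (fun _ => {S | e i ⊆ S}) := by
          ext x
          simp
        rw [h4, hP₂, Measure.infinitePi_pi _ (fun _ _ => MeasurableSet.of_discrete), prod_singleton]
        simp only [hM, Sum.elim_inl]
        rw [ew_superset (he i) (hk0 i) (ha i) (ha2 i) (hθ0 i _) (hθ1 i _) (subset_refl _), if_pos rfl]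
        simp [hθ]
      exact Measure.quasiMeasurePreserving_snd.ae h3
    have h0 : ∀ᵐ ω ∂(P₁.prod P₂), {g | ω.1 g < α g}.Finite := by
      have h2 : ∀ᵐ u ∂P₁, {g | u g < α g}.Finite := by
        have h3 : ∀ g, P₁ {u : γ → ℝ | u g < α g} ≤ ENNReal.ofReal (α g) := by
          intro g
          have h4 : {u : γ → ℝ | u g < α g} = Set.pi (({g} : Finset γ) : Set γ)
              (fun g => Set.Iio (α g)) := by
            ext u
            simp
          rw [h4, hP₁, Measure.infinitePi_pi _ (fun _ _ => measurableSet_Iio), prod_singleton]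
          exact unif_Iio_le (hα0 g)
        have h4 : ∑' g, P₁ {u : γ → ℝ | u g < α g} ≠ ⊤ :=
          ne_top_of_le_ne_top hα.tsum_ofReal_ne_top (ENNReal.tsum_le_tsum h3)
        have h5 := measure_limsup_cofinite_eq_zero h4
        rw [ae_iff]
        refine measure_mono_null (fun u hu => ?_) h5
        rw [Filter.cofinite.limsup_set_eq]
        exact hu
      exact Measure.quasiMeasurePreserving_fst.ae h2
    filter_upwards [h1, h2, h0] with ω hω1 hω2 hω0
    refine ⟨ω.1, hω1, hω0, fun i hi => ?_⟩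
    by_contra hlt
    apply hω2 i
    intro v hv
    have h3 := (hi v hv).2 i ((hF v i).2 hv)
    rw [decide_eq_false hlt] at h3
    exact h3

end Q198.CI
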