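import Pool.Agent.H50.L.CI.Glue

/-! # A random subset of an edge with independent proper subsets -/

set_option autoImplicit false

namespace Q198.CI

open Finset MeasureTheory

/-- the law on the subsets of an edge with `k` vertices: every proper subset `T` is contained in
the random set with probability `a ^ |T|`, the whole edge is the random set with probability
`θ a ^ k` -/
noncomputable def ew (k : ℕ) (a θ : ℝ) (S : Finset ℕ) : ℝ :=
  a ^ S.card * (1 - a) ^ (k - S.card) + (-1) ^ (k - S.card) * (a ^ k * (θ - 1))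

lemma sum_neg_one_Icc {T I : Finset ℕ} (h : T ⊆ I) :
    ∑ S ∈ Icc T I, ((-1 : ℝ)) ^ (I.card - S.card) = if T = I then 1 else 0 := by
  rw [sum_Icc_card h (fun x => (-1 : ℝ) ^ (I.card - x))]
  by_cases hT : T = I
  · rw [if_pos hT, hT]
    simp
  · rw [if_neg hT]
    have hlt : T.card < I.card := card_lt_card (ssubset_of_subset_of_ne h hT)
    have h1 : ∀ m ∈ range (I.card - T.card + 1), ((I.card - T.card).choose m : ℝ) *
        (-1 : ℝ) ^ (I.card - (T.card + m)) = (1 : ℝ) ^ m * (-1) ^ (I.card - T.card - m) *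
        ((I.card - T.card).choose m : ℝ) := by
      intro m _
      rw [one_pow, one_mul, mul_comm]
      congr 2
      omega
    rw [sum_congr rfl h1, ← add_pow]
    norm_num
    omega

lemma ew_sum {I : Finset ℕ} {k : ℕ} (hk : I.card = k) (a θ : ℝ) {T : Finset ℕ} (h : T ⊆ I) :
    ∑ S ∈ Icc T I, ew k a θ S = a ^ T.card + (if T = I then a ^ k * (θ - 1) else 0) := by
  unfold ew
  rw [sum_add_distrib, ← sum_mul, ← hk, sum_neg_one_Icc h]
  have h1 := prod_moment h (fun _ => a)
  simp only [prod_const] at h1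
  have h2 : ∀ S ∈ Icc T I, a ^ S.card * (1 - a) ^ (I.card - S.card) =
      a ^ S.card * (1 - a) ^ (I \ S).card := by
    intro S hS
    rw [card_sdiff_of_subset (mem_Icc.1 hS).2]
  rw [sum_congr rfl h2, h1]
  split_ifs
  · rw [one_mul]
  · rw [zero_mul]

lemma ew_nonneg {I : Finset ℕ} {k : ℕ} (hk : I.card = k) (hk0 : 0 < k) {a θ : ℝ} (ha : 0 < a)
    (ha2 : a ≤ 1 / 2) (hθ : 0 ≤ θ) (hθ1 : θ * a ≤ 1) {S : Finset ℕ} (hS : S ⊆ I) :
    0 ≤ ew k a θ S := by
  unfold ew
  have h1a : 0 < 1 - a := by linarith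
  rcases eq_or_ne S I with h | h
  · rw [h, hk, Nat.sub_self, pow_zero, pow_zero]
    have : 0 ≤ a ^ k * θ := by positivity
    nlinarith
  · have hlt : S.card < k := by
      rw [← hk]
      exact card_lt_card (ssubset_of_subset_of_ne hS h)
    -- `a ^ |S| (1 - a) ^ (k - |S|) ≥ a ^ (k - 1) (1 - a)`
    have h1 : a ^ (k - 1) * (1 - a) ≤ a ^ S.card * (1 - a) ^ (k - S.card) := by
      obtain ⟨d, hd⟩ : ∃ d, k = S.card + 1 + d := ⟨k - (S.card + 1), by omega⟩
      have e1 : k - 1 = S.card + d := by omega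
      have e2 : k - S.card = d + 1 := by omega
      rw [e1, e2, pow_add, pow_succ]
      have h2 : a ^ d ≤ (1 - a) ^ d := pow_le_pow_left₀ ha.le (by linarith) d
      have h3 : 0 ≤ a ^ S.card := by positivity
      calc a ^ S.card * a ^ d * (1 - a) ≤ a ^ S.card * (1 - a) ^ d * (1 - a) := by
            apply mul_le_mul_of_nonneg_right _ h1a.le
            exact mul_le_mul_of_nonneg_left h2 h3
        _ = _ := by ring
    have h2 : |(-1 : ℝ) ^ (k - S.card) * (a ^ k * (θ - 1))| ≤ a ^ (k - 1) * (1 - a) := by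
      rw [abs_mul, abs_pow, abs_neg, abs_one, one_pow, one_mul, abs_mul, abs_of_pos (by positivity : 0 < a ^ k)]
      have e1 : a ^ k = a ^ (k - 1) * a := by
        rw [← pow_succ]
        congr 1
        omega
      rw [e1, mul_assoc]
      apply mul_le_mul_of_nonneg_left _ (by positivity)
      rcases abs_cases (θ - 1) with h3 | h3
      · rw [h3.1]
        nlinarith
      · rw [h3.1]
        nlinarith
    have h3 := neg_abs_le ((-1 : ℝ) ^ (k - S.card) * (a ^ k * (θ - 1)))
    linarith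

lemma ew_law {I : Finset ℕ} {k : ℕ} (hk : I.card = k) (hk0 : 0 < k) {a θ : ℝ} (ha : 0 < a)
    (ha2 : a ≤ 1 / 2) (hθ : 0 ≤ θ) (hθ1 : θ * a ≤ 1) :
    IsLaw I (k - 1) (fun _ => a) (ew k a θ) := by
  refine ⟨fun S hS => ew_nonneg hk hk0 ha ha2 hθ hθ1 hS, fun T hT hTK => ?_⟩
  rw [ew_sum hk a θ hT, prod_const, if_neg, add_zero]
  intro h
  rw [h, hk] at hTK
  omega

/-- the probability that the random set contains `T` -/
lemma ew_superset {I : Finset ℕ} {k : ℕ} (hk : I.card = k) (hk0 : 0 < k) {a θ : ℝ} (ha : 0 < a)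
    (ha2 : a ≤ 1 / 2) (hθ : 0 ≤ θ) (hθ1 : θ * a ≤ 1) {T : Finset ℕ} (hT : T ⊆ I) :
    bm I (ew k a θ) {S | T ⊆ S} = ENNReal.ofReal (a ^ T.card * (if T = I then θ else 1)) := by
  classical
  rw [bm_apply]
  have h1 : a ^ T.card * (if T = I then θ else 1) = ∑ S ∈ Icc T I, ew k a θ S := by
    rw [ew_sum hk a θ hT]
    split_ifs with h
    · rw [h, hk]
      ring
    · ring
  rw [h1, ENNReal.ofReal_sum_of_nonneg]
  · have e : Icc T I = I.powerset.filter (fun S => T ⊆ S) := by
      ext S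
      simp only [mem_Icc, mem_filter, mem_powerset]
      exact and_comm
    rw [e, sum_filter]
    refine sum_congr rfl fun S _ => ?_
    by_cases hS : T ⊆ S
    · rw [if_pos hS, Set.indicator_of_mem (by exact hS)]
      simp
    · rw [if_neg hS, Set.indicator_of_notMem (by exact hS)]
      simp
  · intro S hS
    exact ew_nonneg hk hk0 ha ha2 hθ hθ1 (mem_Icc.1 hS).2

end Q198.CI
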